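import Mathlib
import Pool.Agent.L5helper98.NG.Defs

set_option autoImplicit false

open MeasureTheory ProbabilityTheory Filter Topology Set
open scoped ENNReal

namespace Pool.Agent.L5helper61.NG

open Pool.Agent.L5helper98.NG

theorem QB_holds (hMG : St_MG) (hZB : St_ZB) (hMAS : St_MAS) : St_QB := by
  intro d Ω _ P _ X hd hX β p hβ hp
  obtain ⟨δ0, C2, hδ0, hcov⟩ := hX.cov
  obtain ⟨_, C3, hC3, hZB'⟩ := hZB d Ω P X hX β hβ
  have hp0 : 0 < p := by linarith
  have hpβ : 0 ≤ p * β := by positivity
  obtain ⟨C1, hC1, hMG'⟩ := hMG d Ω P X hX (p * β) hpβ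
  refine ⟨δ0, p * C3 + (p * β) ^ 2 * C2 / 2 + C1, hδ0, ?_⟩
  intro n a r hr hrδ ht hQ
  haveI : Nonempty (Fin d) := ⟨⟨0, hd⟩⟩
  generalize hQdef : Icc a (a + fun _ => r) = Q at hQ ⊢
  have hQm : MeasurableSet Q := hQdef ▸ measurableSet_Icc
  have hQc : IsCompact Q := hQdef ▸ isCompact_Icc
  have hvol : volume Q = ENNReal.ofReal (r ^ d) := by
    rw [← hQdef, Real.volume_Icc_pi]
    simp [ENNReal.ofReal_pow hr.le]
  have hV : 0 < r ^ d := pow_pos hr d
  have hvolR : volume.real Q = r ^ d := by
    rw [measureReal_def, hvol, ENNReal.toReal_ofReal hV.le]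
  have hc0 : 0 ≤ p * β / r ^ d := by positivity
  obtain ⟨ρ, hρ⟩ : ∃ ρ : Measure (Fin d → ℝ), ρ = ENNReal.ofReal (p * β / r ^ d) •
    (volume.restrict Q) := ⟨_, rfl⟩
  have hρu : ρ univ = ENNReal.ofReal (p * β) := by
    rw [hρ, Measure.smul_apply, Measure.restrict_apply_univ, hvol, smul_eq_mul,
      ← ENNReal.ofReal_mul hc0]
    congr 1
    field_simp
  have hρc : ρ (cube d)ᶜ = 0 := by
    rw [hρ, Measure.smul_apply, Measure.restrict_apply' hQm]
    have : (cube d)ᶜ ∩ Q = ∅ := by
      rw [Set.eq_empty_iff_forall_notMem]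
      rintro x ⟨h1, h2⟩
      exact h1 (hQ h2)
    simp [this]
  haveI : IsFiniteMeasure ρ := ⟨by rw [hρu]; exact ENNReal.ofReal_lt_top⟩
  have hρr : ρ.real univ = p * β := by
    rw [measureReal_def, hρu, ENNReal.toReal_ofReal hpβ]
  obtain ⟨hI1, hlow, -⟩ := hMG' n ρ hρc hρu.le
  -- measurability of the covariance
  have hunc : ∀ k, Measurable (fun q : (Fin d → ℝ) × Ω => X k q.2 q.1) := fun k =>
    measurable_uncurry_of_continuous_of_measurable (u := fun x o => X k o x)
      (fun o => hX.cont k o) (fun x => hX.meas k x)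
  have hCvm : Measurable (fun q : (Fin d → ℝ) × (Fin d → ℝ) => Cv P X n q.1 q.2) := by
    unfold Cv
    apply Finset.measurable_sum
    intro k _
    have h2 : Measurable (fun q : ((Fin d → ℝ) × (Fin d → ℝ)) × Ω =>
        X k q.2 q.1.1 * X k q.2 q.1.2) :=
      ((hunc k).comp ((measurable_fst.comp measurable_fst).prodMk measurable_snd)).mul
        ((hunc k).comp ((measurable_snd.comp measurable_fst).prodMk measurable_snd))
    exact (h2.stronglyMeasurable.integral_prod_right').measurable
  have hdist : ∀ x ∈ Q, ∀ y ∈ Q, ‖x - y‖ ≤ r := by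
    intro x hx y hy
    rw [← hQdef] at hx hy
    rw [pi_norm_le_iff_of_nonneg hr.le]
    intro i
    have h1 := hx.1 i
    have h2 := hx.2 i
    have h3 := hy.1 i
    have h4 := hy.2 i
    simp only [Pi.add_apply] at h2 h4
    rw [Pi.sub_apply, Real.norm_eq_abs, abs_le]
    constructor <;> linarith
  have hCv : ∀ x ∈ Q, ∀ y ∈ Q, x ≠ y → |Cv P X n x y - Cv P X n 0 0| ≤ C2 := by
    intro x hx y hy hxy
    have h1 := hcov n x (hQ hx) y (hQ hy) hxy ((hdist x hx y hy).trans hrδ)
    have hpos : 0 < ‖x - y‖ := norm_pos_iff.2 (sub_ne_zero.2 hxy)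
    have h2 : Real.log (1 / r) ≤ Real.log (1 / ‖x - y‖) :=
      Real.log_le_log (by positivity) (one_div_le_one_div_of_le hpos (hdist x hx y hy))
    rwa [min_eq_right (ht.trans h2)] at h1
  have hZn := hZB' n
  generalize Cv P X n 0 0 = t at *
  have hae : ∀ x ∈ Q, ∀ᵐ y ∂ρ, |Cv P X n x y - t| ≤ C2 := by
    intro x hx
    have h1 : ∀ᵐ y ∂(volume.restrict Q), |Cv P X n x y - t| ≤ C2 := by
      rw [ae_restrict_iff' hQm]
      have h0 : ∀ᵐ y : Fin d → ℝ, y ≠ x := by
        rw [ae_iff]
        simp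
      filter_upwards [h0] with y hy hyQ
      exact hCv x hx y hyQ (Ne.symm hy)
    rw [hρ]
    exact Measure.ae_smul_measure h1 _
  have hinner_int : ∀ x ∈ Q, Integrable (fun y => Cv P X n x y) ρ := by
    intro x hx
    have hm : Measurable (fun y => Cv P X n x y) :=
      hCvm.comp (measurable_const.prodMk measurable_id)
    refine Integrable.of_bound hm.aestronglyMeasurable (|t| + C2) ?_
    filter_upwards [hae x hx] with y hy
    rw [Real.norm_eq_abs]
    have := abs_sub_abs_le_abs_sub (Cv P X n x y) t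
    linarith
  have hinner : ∀ x ∈ Q, (t - C2) * (p * β) ≤ ∫ y, Cv P X n x y ∂ρ := by
    intro x hx
    have h1 := integral_mono_ae (integrable_const (t - C2)) (hinner_int x hx)
      (by
        filter_upwards [hae x hx] with y hy
        have := (abs_le.1 hy).1
        linarith)
    rw [integral_const, smul_eq_mul, hρr] at h1
    linarith
  have hinner2 : ∀ x ∈ Q, ‖∫ y, Cv P X n x y ∂ρ‖ ≤ (|t| + C2) * (p * β) := by
    intro x hx
    have h1 := norm_integral_le_of_norm_le_const (μ := ρ) (f := fun y => Cv P X n x y)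
      (C := |t| + C2)
      (by
        filter_upwards [hae x hx] with y hy
        rw [Real.norm_eq_abs]
        have := abs_sub_abs_le_abs_sub (Cv P X n x y) t
        linarith)
    rwa [hρr] at h1
  have hout : (t - C2) * (p * β) ^ 2 ≤ ∫ x, ∫ y, Cv P X n x y ∂ρ ∂ρ := by
    have hg : Measurable (fun x => ∫ y, Cv P X n x y ∂ρ) :=
      (hCvm.stronglyMeasurable.integral_prod_right').measurable
    have haeQ : ∀ᵐ x ∂ρ, x ∈ Q := by
      rw [hρ]
      exact Measure.ae_smul_measure (ae_restrict_mem hQm) _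
    have hgi : Integrable (fun x => ∫ y, Cv P X n x y ∂ρ) ρ :=
      Integrable.of_bound hg.aestronglyMeasurable ((|t| + C2) * (p * β))
        (by filter_upwards [haeQ] with x hx using hinner2 x hx)
    have h1 := integral_mono_ae (integrable_const ((t - C2) * (p * β))) hgi
      (by filter_upwards [haeQ] with x hx using hinner x hx)
    rw [integral_const, smul_eq_mul, hρr] at h1
    calc (t - C2) * (p * β) ^ 2 = p * β * ((t - C2) * (p * β)) := by ring
      _ ≤ _ := h1
  -- pointwise bound
  have hpt : ∀ o, r ^ (d * p) * Real.exp (-(p * β ^ 2 * t / 2) - p * C3) *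
      Real.exp (∫ x, S X n o x ∂ρ) ≤ mass P X β Q n o ^ p := by
    intro o
    have hScont : Continuous (S X n o) := by
      unfold S
      exact continuous_finset_sum _ fun k _ => hX.cont k o
    have hSint : IntegrableOn (S X n o) Q := hScont.continuousOn.integrableOn_compact hQc
    have hconst : ∀ c : ℝ, IntegrableOn (fun _ : Fin d → ℝ => c) Q := fun c =>
      continuous_const.continuousOn.integrableOn_compact hQc
    have hgi : IntegrableOn (fun x => β * S X n o x - (β ^ 2 * t / 2 + C3)) Q :=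
      (hSint.const_mul β).sub (hconst _)
    obtain ⟨m, hm⟩ : ∃ m : ℝ, m = (∫ x in Q, (β * S X n o x - (β ^ 2 * t / 2 + C3))) / r ^ d :=
      ⟨_, rfl⟩
    have hgval : ∫ x in Q, (β * S X n o x - (β ^ 2 * t / 2 + C3)) = m * r ^ d := by
      rw [hm, div_mul_cancel₀ _ hV.ne']
    have hmval : m * p = (∫ x, S X n o x ∂ρ) + (-(p * β ^ 2 * t / 2) - p * C3) := by
      have h1 : ∫ x in Q, (β * S X n o x - (β ^ 2 * t / 2 + C3)) =
          β * (∫ x in Q, S X n o x) - (β ^ 2 * t / 2 + C3) * r ^ d := by
        rw [integral_sub (hSint.const_mul β) (hconst _), integral_const_mul, setIntegral_const,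
          hvolR, smul_eq_mul]
        ring
      have h2 : ∫ x, S X n o x ∂ρ = p * β / r ^ d * ∫ x in Q, S X n o x := by
        rw [hρ, integral_smul_measure, ENNReal.toReal_ofReal hc0, smul_eq_mul]
      rw [hm, h1, h2]
      field_simp
      ring
    have h1 : ∀ x ∈ Q, Real.exp m * (1 + (β * S X n o x - (β ^ 2 * t / 2 + C3)) - m) ≤
        Real.exp (β * S X n o x) / Zf P X β n x := by
      intro x hx
      have hz := hZn x (hQ hx)
      have hzpos : 0 < Zf P X β n x := (Real.exp_pos _).trans_le hz.2.1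
      have e1 : Real.exp m * (1 + (β * S X n o x - (β ^ 2 * t / 2 + C3)) - m) ≤
          Real.exp (β * S X n o x - (β ^ 2 * t / 2 + C3)) := by
        have h := mul_le_mul_of_nonneg_left
          (Real.add_one_le_exp ((β * S X n o x - (β ^ 2 * t / 2 + C3)) - m)) (Real.exp_pos m).le
        rw [← Real.exp_add] at h
        have e : m + ((β * S X n o x - (β ^ 2 * t / 2 + C3)) - m) =
            β * S X n o x - (β ^ 2 * t / 2 + C3) := by ring
        rw [e] at h
        linarith
      have e2 : Real.exp (β * S X n o x - (β ^ 2 * t / 2 + C3)) ≤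
          Real.exp (β * S X n o x) / Zf P X β n x := by
        rw [le_div_iff₀ hzpos]
        calc Real.exp (β * S X n o x - (β ^ 2 * t / 2 + C3)) * Zf P X β n x
            ≤ Real.exp (β * S X n o x - (β ^ 2 * t / 2 + C3)) *
                Real.exp (β ^ 2 * t / 2 + C3) :=
              mul_le_mul_of_nonneg_left hz.2.2 (Real.exp_pos _).le
          _ = Real.exp (β * S X n o x) := by
              rw [← Real.exp_add]
              congr 1
              ring
      exact e1.trans e2
    obtain ⟨-, -, hfi, -⟩ := hMAS d Ω P X hX β hβ Q hQm hQ n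
    have h2 : Real.exp m * r ^ d ≤ mass P X β Q n o := by
      have hi1 : IntegrableOn (fun x => Real.exp m *
          (1 + (β * S X n o x - (β ^ 2 * t / 2 + C3)) - m)) Q :=
        (((hconst 1).add hgi).sub (hconst m)).const_mul _
      have hmono := setIntegral_mono_on hi1 (hfi o) hQm h1
      have hval : ∫ x in Q, Real.exp m * (1 + (β * S X n o x - (β ^ 2 * t / 2 + C3)) - m) =
          Real.exp m * r ^ d := by
        rw [integral_const_mul]
        congr 1
        have hi2 : IntegrableOn (fun x => 1 + (β * S X n o x - (β ^ 2 * t / 2 + C3))) Q :=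
          (hconst 1).add hgi
        rw [integral_sub hi2 (hconst m), integral_add (hconst 1) hgi, hgval, setIntegral_const,
          setIntegral_const, hvolR, smul_eq_mul, smul_eq_mul]
        ring
      rw [hval] at hmono
      exact hmono
    have h3 : (Real.exp m * r ^ d) ^ p ≤ mass P X β Q n o ^ p :=
      Real.rpow_le_rpow (by positivity) h2 hp0.le
    refine le_trans (le_of_eq ?_) h3
    rw [Real.mul_rpow (Real.exp_pos m).le hV.le, ← Real.exp_mul, hmval, Real.exp_add,
      Real.rpow_mul hr.le, Real.rpow_natCast]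
    ring
  -- conclusion
  have hKpos : 0 ≤ r ^ (d * p) * Real.exp (-(p * β ^ 2 * t / 2) - p * C3) := by positivity
  calc ENNReal.ofReal (r ^ (d * p) * Real.exp (β ^ 2 * (p ^ 2 - p) / 2 * t -
        (p * C3 + (p * β) ^ 2 * C2 / 2 + C1)))
      ≤ ENNReal.ofReal (∫ o, r ^ (d * p) * Real.exp (-(p * β ^ 2 * t / 2) - p * C3) *
          Real.exp (∫ x, S X n o x ∂ρ) ∂P) := by
        apply ENNReal.ofReal_le_ofReal
        rw [integral_const_mul]
        have h1 : Real.exp ((1 / 2) * ((t - C2) * (p * β) ^ 2) - C1) ≤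
            ∫ o, Real.exp (∫ x, S X n o x ∂ρ) ∂P :=
          (Real.exp_le_exp.2 (by linarith)).trans hlow
        refine le_trans (le_of_eq ?_) (mul_le_mul_of_nonneg_left h1 hKpos)
        rw [mul_assoc, ← Real.exp_add]
        congr 2
        ring
    _ = ∫⁻ o, ENNReal.ofReal (r ^ (d * p) * Real.exp (-(p * β ^ 2 * t / 2) - p * C3) *
          Real.exp (∫ x, S X n o x ∂ρ)) ∂P :=
        ofReal_integral_eq_lintegral_ofReal (hI1.const_mul _)
          (Eventually.of_forall fun o => by positivity)
    _ ≤ ∫⁻ o, ENNReal.ofReal (mass P X β Q n o ^ p) ∂P :=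
        lintegral_mono fun o => ENNReal.ofReal_le_ofReal (hpt o)

end Pool.Agent.L5helper61.NG
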